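import Pool.Agent.Helper97.Tns.Goals

/-! MP_97d78d_ag, packet FM: integer solutions of linear inequalities (Farkas). -/

namespace Pool.Agent.Helper89.Tns

/-- Farkas' lemma (Bartl's induction). -/
theorem farkas {V ι : Type*} [AddCommGroup V] [Module ℚ V] [DecidableEq ι] (s : Finset ι) :
    ∀ (a : ι → V →ₗ[ℚ] ℚ) (b : V →ₗ[ℚ] ℚ), (∀ x, (∀ i ∈ s, 0 ≤ a i x) → 0 ≤ b x) →
      ∃ c : ι → ℚ, (∀ i, 0 ≤ c i) ∧ ∀ x, b x = ∑ i ∈ s, c i * a i x := by
  induction s using Finset.induction_on with
  | empty =>
    intro a b h
    refine ⟨fun _ => 0, fun _ => le_rfl, fun x => ?_⟩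
    rw [Finset.sum_empty]
    have h1 := h x (by simp)
    have h2 := h (-x) (by simp)
    rw [map_neg] at h2
    linarith
  | insert j s hj ih =>
    intro a b h
    by_cases h0 : ∀ x, (∀ i ∈ s, 0 ≤ a i x) → 0 ≤ b x
    · obtain ⟨c, hc, hb⟩ := ih a b h0
      refine ⟨fun i => if i = j then 0 else c i, fun i => ?_, fun x => ?_⟩
      · dsimp only
        split_ifs
        · exact le_rfl
        · exact hc i
      · rw [Finset.sum_insert hj]
        beta_reduce
        rw [if_pos rfl, zero_mul, zero_add, hb x]
        apply Finset.sum_congr rfl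
        intro i hi
        rw [if_neg (fun (h9 : i = j) => hj (h9 ▸ hi))]
    · push Not at h0
      obtain ⟨y, hy, hby⟩ := h0
      have hjy : a j y < 0 := by
        by_contra hcon
        push Not at hcon
        have := h y (fun i hi => by
          rcases Finset.mem_insert.1 hi with rfl | hi
          · exact hcon
          · exact hy i hi)
        linarith
      -- normalise
      set t : ℚ := (-(a j y))⁻¹ with ht
      have htpos : 0 < t := inv_pos.2 (by linarith)
      set z : V := t • y with hz
      have hjz : a j z = -1 := by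
        rw [hz, map_smul, smul_eq_mul, ht]
        have : a j y ≠ 0 := hjy.ne
        rw [inv_neg, neg_mul, inv_mul_cancel₀ this]
      have hz1 : ∀ i ∈ s, 0 ≤ a i z := by
        intro i hi
        rw [hz, map_smul, smul_eq_mul]
        exact mul_nonneg htpos.le (hy i hi)
      have hz2 : b z < 0 := by
        rw [hz, map_smul, smul_eq_mul]
        exact mul_neg_of_pos_of_neg htpos hby
      let T : V →ₗ[ℚ] V := LinearMap.id + (a j).smulRight z
      have hT : ∀ x, T x = x + a j x • z := fun x => rfl
      obtain ⟨c, hc, hb⟩ := ih (fun i => (a i).comp T) (b.comp T) (by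
        intro x hx
        simp only [LinearMap.comp_apply] at hx ⊢
        apply h
        intro i hi
        rcases Finset.mem_insert.1 hi with rfl | hi
        · rw [hT, map_add, map_smul, hjz, smul_eq_mul]
          linarith
        · exact hx i hi)
      refine ⟨fun i => if i = j then (∑ i ∈ s, c i * a i z) - b z else c i, fun i => ?_,
        fun x => ?_⟩
      · dsimp only
        split_ifs
        · have : 0 ≤ ∑ i ∈ s, c i * a i z :=
            Finset.sum_nonneg fun i hi => mul_nonneg (hc i) (hz1 i hi)
          linarith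
        · exact hc i
      · rw [Finset.sum_insert hj]
        beta_reduce
        rw [if_pos rfl]
        have h1 : ∑ i ∈ s, (if i = j then (∑ i ∈ s, c i * a i z) - b z else c i) * a i x =
            ∑ i ∈ s, c i * a i x := by
          apply Finset.sum_congr rfl
          intro i hi
          rw [if_neg (fun (h9 : i = j) => hj (h9 ▸ hi))]
        rw [h1]
        have h2 := hb x
        simp only [LinearMap.comp_apply, hT, map_add, map_smul, smul_eq_mul] at h2
        have h3 : ∑ i ∈ s, c i * (a i x + a j x * a i z) =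
            ∑ i ∈ s, c i * a i x + a j x * ∑ i ∈ s, c i * a i z := by
          rw [Finset.mul_sum, ← Finset.sum_add_distrib]
          apply Finset.sum_congr rfl
          intro i _
          ring
        rw [h3] at h2
        linarith

theorem common_den {ι : Type*} (s : Finset ι) (f : ι → ℚ) :
    ∃ N : ℕ, 0 < N ∧ ∀ i ∈ s, ∃ z : ℤ, (N : ℚ) * f i = z := by
  refine ⟨∏ i ∈ s, (f i).den, Finset.prod_pos fun i _ => (f i).den_pos, fun i hi => ?_⟩
  obtain ⟨k, hk⟩ := Finset.dvd_prod_of_mem (fun i => (f i).den) hi
  refine ⟨k * (f i).num, ?_⟩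
  rw [hk]
  push_cast
  have h1 : (f i).den * f i = (f i).num := by
    rw [mul_comm]
    exact Rat.mul_den_eq_num (f i)
  calc ((f i).den : ℚ) * k * f i = k * ((f i).den * f i) := by ring
    _ = k * (f i).num := by rw [h1]

theorem fm : Pool.Agent.Helper97.Tns.S_FM := by
  intro Γ _ _ _ n S u γ hS hu
  by_contra hcon
  push Not at hcon
  classical
  obtain ⟨c, hc, hb⟩ := farkas (V := Fin n → ℚ) S
    (fun m => ∑ i, (m i : ℚ) • LinearMap.proj i) (∑ i, (u i : ℚ) • LinearMap.proj i) (by
      intro x hx
      obtain ⟨N, hN, hz⟩ := common_den Finset.univ x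
      choose z hz using fun i => hz i (Finset.mem_univ i)
      have hN' : (0 : ℚ) < N := by exact_mod_cast hN
      have key : ∀ v : Fin n → ℤ, (N : ℚ) * (∑ i, (v i : ℚ) • (LinearMap.proj i :
          (Fin n → ℚ) →ₗ[ℚ] ℚ)) x = ((∑ i, v i * z i : ℤ) : ℚ) := by
        intro v
        simp only [LinearMap.sum_apply, LinearMap.smul_apply, LinearMap.proj_apply, smul_eq_mul]
        rw [Finset.mul_sum]
        push_cast
        apply Finset.sum_congr rfl
        intro i _
        rw [← hz i]
        ring
      have h1 := hcon z (by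
        intro m hm
        have h2 : (0 : ℚ) ≤ ((∑ i, m i * z i : ℤ) : ℚ) := by
          rw [← key m]
          exact mul_nonneg hN'.le (hx m hm)
        exact_mod_cast h2)
      have h3 : (0 : ℚ) ≤ ((∑ i, u i * z i : ℤ) : ℚ) := by exact_mod_cast h1
      rw [← key u] at h3
      exact nonneg_of_mul_nonneg_right h3 hN')
  have hui : ∀ i, (u i : ℚ) = ∑ m ∈ S, c m * m i := by
    intro i
    have := hb (Pi.single i 1)
    simp only [LinearMap.sum_apply, LinearMap.smul_apply, LinearMap.proj_apply, smul_eq_mul,
      Pi.single_apply, mul_ite, mul_one, mul_zero, Finset.sum_ite_eq', Finset.mem_univ,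
      if_true] at this
    simpa using this
  obtain ⟨N, hN, hz⟩ := common_den S c
  choose! k hk using hz
  have hN' : (0 : ℚ) < N := by exact_mod_cast hN
  have hk0 : ∀ m ∈ S, 0 ≤ k m := by
    intro m hm
    have : (0 : ℚ) ≤ (k m : ℚ) := by
      rw [← hk m hm]
      exact mul_nonneg hN'.le (hc m)
    exact_mod_cast this
  have hNu : ∀ i, (N : ℤ) * u i = ∑ m ∈ S, k m * m i := by
    intro i
    have : ((N : ℤ) * u i : ℚ) = ((∑ m ∈ S, k m * m i : ℤ) : ℚ) := by
      push_cast
      rw [hui i, Finset.mul_sum]
      apply Finset.sum_congr rfl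
      intro m hm
      rw [← hk m hm]
      ring
    exact_mod_cast this
  have h1 : N • ∑ i, u i • γ i = ∑ m ∈ S, k m • ∑ i, m i • γ i := by
    rw [← natCast_zsmul, Finset.smul_sum]
    simp only [Finset.smul_sum, smul_smul]
    rw [Finset.sum_comm]
    apply Finset.sum_congr rfl
    intro i _
    rw [hNu i, Finset.sum_smul]
  have h2 : 0 ≤ N • ∑ i, u i • γ i := by
    rw [h1]
    exact Finset.sum_nonneg fun m hm => zsmul_nonneg (hS m hm) (hk0 m hm)
  have h3 : N • ∑ i, u i • γ i < 0 := nsmul_neg hu hN.ne'
  exact absurd h2 (not_le.2 h3)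

end Pool.Agent.Helper89.Tns
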